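import Pool.Agent.H95.NV.Targets1

/-!
# (IDC) the elements of the ideals `A + f⁻¹ w`
-/

set_option autoImplicit false

open NumberField
open scoped nonZeroDivisors

namespace Pool.Agent.H93.NV

open Pool.Agent.H95.NV NumberField

theorem int_aux {R S : Type} [CommRing R] [CommRing S] [Algebra R S] (z : S) (a b : R)
    (h : z ^ 2 = algebraMap R S a * z - algebraMap R S b) : IsIntegral R z := by
  refine ⟨Polynomial.X ^ 2 - (Polynomial.C a * Polynomial.X - Polynomial.C b), ?_, ?_⟩
  · refine Polynomial.monic_X_pow_sub (n := 2) ?_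
    refine lt_of_le_of_lt (Polynomial.degree_sub_le _ _) (max_lt ?_ ?_)
    · exact lt_of_le_of_lt (Polynomial.degree_C_mul_X_le a) (by norm_num)
    · exact lt_of_le_of_lt Polynomial.degree_C_le (by norm_num)
  · simp only [Polynomial.eval₂_sub, Polynomial.eval₂_mul, Polynomial.eval₂_pow,
      Polynomial.eval₂_X, Polynomial.eval₂_C]
    rw [h, sub_self]

section

variable {k K : Type} [Field k] [NumberField k] [Field K] [NumberField K] [Algebra k K]

/-- the square of `w` -/
theorem w_sq (D b c : 𝓞 k) (δ : K) (hsq : δ ^ 2 = -algebraMap k K (D : k))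
    (hc : 4 * c = b ^ 2 + D) :
    w b δ ^ 2 = algebraMap k K (b : k) * w b δ - algebraMap k K (c : k) := by
  have h4 : 4 * algebraMap k K (c : k) = algebraMap k K (b : k) ^ 2 + algebraMap k K (D : k) := by
    have h5 : algebraMap k K ((4 : 𝓞 k) : k) = 4 := by
      rw [← map_ofNat (algebraMap k K) 4]
      rfl
    rw [← h5, ← cmul, hc, cadd, pow_two, cmul, pow_two]
  unfold w
  have h2 : (2 : K) ≠ 0 := two_ne_zero
  field_simp
  linear_combination hsq + h4

omit [NumberField k] [NumberField K] in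
/-- an element of `K` which is integral -/
theorem exists_int {z : K} (a b : 𝓞 k) (h : z ^ 2 = algebraMap k K (a : k) * z -
    algebraMap k K (b : k)) : ∃ t : 𝓞 K, (t : K) = z := by
  have hz : IsIntegral (𝓞 k) z := int_aux z a b h
  have h1 : IsIntegral ℤ z := isIntegral_trans (R := ℤ) (A := 𝓞 k) z hz
  exact ⟨⟨z, h1⟩, rfl⟩

omit [NumberField k] [NumberField K] in
/-- an element of `k` which is integral in `K` -/
theorem exists_int_base {x : k} {t : 𝓞 K} (h : (t : K) = algebraMap k K x) :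
    ∃ s : 𝓞 k, (s : k) = x := by
  have h1 : IsIntegral ℤ (algebraMap k K x) := by
    rw [← h]
    exact RingOfIntegers.isIntegral_coe t
  exact ⟨⟨x, (isIntegral_algebraMap_iff (algebraMap k K).injective).1 h1⟩, rfl⟩

end

theorem pf_IDC (_hCOO : T_COO) (hFNV : T_FNV) : T_IDC := by
  intro k K _ _ _ _ _ _ _ f D b₀ δ hK A b hA
  obtain ⟨hfin, hadd, hmul, -, -, hiff⟩ := hFNV k f hK.f_ne
  -- integrality of `q w`
  have hqw : ∀ (A : Ideal (𝓞 k)) (b : 𝓞 k), Adm f D A b → ∀ q ∈ fi f, ∃ t : 𝓞 K,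
      (t : K) = algebraMap k K q * w b δ := by
    rintro A b ⟨-, hb, c, hc, h4⟩ q hq
    have hc' : ∃ s ∈ A * f * f, (s : k) = (c : k) := ⟨c, by rwa [mul_assoc, ← pow_two], rfl⟩
    obtain ⟨t1, ht1, h1⟩ := (hiff (A * f) c).2 hc' q hq
    obtain ⟨t2, -, h2⟩ := (hiff A t1).2 ⟨t1, ht1, rfl⟩ q hq
    obtain ⟨s, hs⟩ := hq b hb
    refine exists_int (k := k) s t2 ?_
    rw [mul_pow, w_sq D b c δ hK.sq h4, hs, h2, h1]
    simp only [map_mul]
    ring
  -- all integers in terms of `w b`
  have hall : ∀ (A : Ideal (𝓞 k)) (b : 𝓞 k), Adm f D A b → ∀ z : 𝓞 K, ∃ (p : 𝓞 k) (q : k),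
      q ∈ fi f ∧ (z : K) = algebraMap k K (p : k) + algebraMap k K q * w b δ := by
    intro A b hA z
    obtain ⟨p, q, hq, hz⟩ := (hK.int z).1 ⟨z, rfl⟩
    obtain ⟨t1, h1⟩ := hqw _ _ hK.adm q hq
    obtain ⟨t2, h2⟩ := hqw _ _ hA q hq
    have h3 : ((t1 - t2 : 𝓞 K) : K) = algebraMap k K (q * (((b₀ : k) - (b : k)) / 2)) := by
      have h4 : ((t1 - t2 : 𝓞 K) : K) = (t1 : K) - (t2 : K) := rfl
      rw [h4, h1, h2]
      unfold w
      simp only [map_mul, map_div₀, map_sub, map_ofNat]
      ring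
    obtain ⟨s, hs⟩ := exists_int_base h3
    refine ⟨p + s, q, hq, ?_⟩
    rw [hz, cadd, hs]
    unfold w
    simp only [map_mul, map_div₀, map_sub, map_ofNat]
    ring
  have h0 : (0 : k) ∈ fi f := fun a _ => ⟨0, by simp⟩
  -- the first clause
  have h1 : ∀ (A : Ideal (𝓞 k)) (b : 𝓞 k), Adm f D A b → ∀ z : 𝓞 K,
      z ∈ Id f A b δ ↔ ∃ x ∈ A, ∃ q ∈ fi f,
        (z : K) = algebraMap k K (x : k) + algebraMap k K q * w b δ := by
    intro A b hA z
    have hA' := hA
    obtain ⟨-, hb, c, hc, h4⟩ := hA'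
    have hw := w_sq D b c δ hK.sq h4
    constructor
    · let S : Ideal (𝓞 K) :=
        { carrier := {z | ∃ x ∈ A, ∃ q ∈ fi f,
            (z : K) = algebraMap k K (x : k) + algebraMap k K q * w b δ}
          zero_mem' := ⟨0, Ideal.zero_mem _, 0, h0, by simp⟩
          add_mem' := by
            rintro z z' ⟨x, hx, q, hq, hz⟩ ⟨x', hx', q', hq', hz'⟩
            refine ⟨x + x', Ideal.add_mem _ hx hx', q + q', hadd q hq q' hq', ?_⟩
            have h5 : ((z + z' : 𝓞 K) : K) = (z : K) + (z' : K) := rfl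
            rw [h5, hz, hz', cadd, map_add]
            ring
          smul_mem' := by
            rintro r z ⟨x, hx, q, hq, hz⟩
            obtain ⟨p, q', hq', hr⟩ := hall A b hA r
            have hc' : ∃ s ∈ A * f * f, (s : k) = (c : k) :=
              ⟨c, by rwa [mul_assoc, ← pow_two], rfl⟩
            obtain ⟨t1, ht1, e1⟩ := (hiff (A * f) c).2 hc' q hq
            obtain ⟨t2, ht2, e2⟩ := (hiff A t1).2 ⟨t1, ht1, rfl⟩ q' hq'
            obtain ⟨s, hs⟩ := hq b hb
            refine ⟨p * x - t2, Ideal.sub_mem _ (Ideal.mul_mem_left _ _ hx) ht2,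
              (p : k) * q + ((x : k) * q' + (s : k) * q'),
              hadd _ (hmul p q hq) _ (hadd _ (hmul x q' hq') _ (hmul s q' hq')), ?_⟩
            have h5 : ((r • z : 𝓞 K) : K) = (r : K) * (z : K) := rfl
            have h6 : algebraMap k K ((p * x - t2 : 𝓞 k) : k) =
                algebraMap k K (p : k) * algebraMap k K (x : k) - algebraMap k K (t2 : k) := by
              rw [← map_mul, ← map_sub]
              rfl
            rw [h5, hr, hz, h6, hs, e2, e1]
            simp only [map_mul, map_add]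
            linear_combination (algebraMap k K q' * algebraMap k K q) * hw }
      have hle : Id f A b δ ≤ S := by
        refine sup_le ?_ ?_
        · rw [Ideal.map_le_iff_le_comap]
          intro x hx
          exact ⟨x, hx, 0, h0, by
            rw [map_zero, zero_mul, add_zero]
            rfl⟩
        · rw [Ideal.span_le]
          rintro z ⟨q, hq, hz⟩
          exact ⟨0, Ideal.zero_mem _, q, hq, by
            rw [hz]
            simp⟩
      intro hz
      exact hle hz
    · rintro ⟨x, hx, q, hq, hz⟩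
      have h5 : z = algebraMap (𝓞 k) (𝓞 K) x + (z - algebraMap (𝓞 k) (𝓞 K) x) := by ring
      rw [h5]
      refine Submodule.add_mem_sup (Ideal.mem_map_of_mem _ hx) (Ideal.subset_span ⟨q, hq, ?_⟩)
      have h6 : ((z - algebraMap (𝓞 k) (𝓞 K) x : 𝓞 K) : K) = (z : K) - algebraMap k K (x : k) :=
        rfl
      rw [h6, hz]
      ring
  have hwadd : ∀ (b t : 𝓞 k), w (K := K) (b + 2 * t) δ = w b δ + algebraMap k K (t : k) := by
    intro b t
    unfold w
    rw [cadd, cmul]
    have h5 : algebraMap k K ((2 : 𝓞 k) : k) = 2 := by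
      rw [← map_ofNat (algebraMap k K) 2]
      rfl
    rw [h5]
    ring
  have hadm : ∀ t ∈ A * f, Adm f D A (b + 2 * t) := by
    intro t ht
    obtain ⟨hA0, hb, c, hc, h4⟩ := hA
    refine ⟨hA0, Ideal.add_mem _ hb (Ideal.mul_mem_left _ _ (Ideal.mul_le_right ht)),
      c + t * (b + t), Ideal.add_mem _ hc ?_, ?_⟩
    · rw [pow_two, ← mul_assoc]
      exact Ideal.mul_mem_mul ht (Ideal.add_mem _ hb (Ideal.mul_le_right ht))
    · linear_combination h4
  refine ⟨h1 A b hA, ?_, ?_, ?_, ?_⟩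
  · intro t ht
    refine ⟨?_, ?_, hadm t ht⟩
    · ext z
      rw [h1 A _ (hadm t ht), h1 A b hA]
      constructor
      · rintro ⟨x, hx, q, hq, hz⟩
        obtain ⟨s, hs, e⟩ := (hiff A t).2 ⟨t, ht, rfl⟩ q hq
        refine ⟨x + s, Ideal.add_mem _ hx hs, q, hq, ?_⟩
        rw [hz, hwadd, cadd, e, map_mul]
        ring
      · rintro ⟨x, hx, q, hq, hz⟩
        obtain ⟨s, hs, e⟩ := (hiff A t).2 ⟨t, ht, rfl⟩ q hq
        refine ⟨x - s, Ideal.sub_mem _ hx hs, q, hq, ?_⟩
        have h6 : algebraMap k K ((x - s : 𝓞 k) : k) =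
            algebraMap k K (x : k) - algebraMap k K (s : k) := by
          rw [← map_sub]
          rfl
        rw [hz, hwadd, h6, e, map_mul]
        ring
    · ext z
      constructor
      · rintro ⟨x, hx, y, hz⟩
        refine ⟨x + y * t, Ideal.add_mem _ hx (Ideal.mul_mem_left _ _ ht), y, ?_⟩
        rw [hz, hwadd, cadd, cmul]
        ring
      · rintro ⟨x, hx, y, hz⟩
        refine ⟨x - y * t, Ideal.sub_mem _ hx (Ideal.mul_mem_left _ _ ht), y, ?_⟩
        have h6 : algebraMap k K ((x - y * t : 𝓞 k) : k) =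
            algebraMap k K (x : k) - algebraMap k K (y : k) * algebraMap k K (t : k) := by
          rw [← map_mul, ← map_sub]
          rfl
        rw [hz, hwadd, h6]
        ring
  · intro z
    have hid := h1 A b hA
    constructor
    · rintro ⟨x, hx, y, hz⟩
      obtain ⟨s, hs, hsum⟩ := hfin
      have hex : ∀ a ∈ s, ∃ t ∈ f.map (algebraMap (𝓞 k) (𝓞 K)) * Id f A b δ,
          (t : K) = algebraMap k K ((y : k) * ((a.1 : k) * a.2)) * w b δ := by
        intro a ha
        obtain ⟨h5, h6⟩ := hs a ha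
        obtain ⟨t, ht⟩ := hqw A b hA a.2 h6
        refine ⟨algebraMap (𝓞 k) (𝓞 K) (y * a.1) * t, Ideal.mul_mem_mul
          (Ideal.mem_map_of_mem _ (Ideal.mul_mem_left _ _ h5))
          ((hid t).2 ⟨0, Ideal.zero_mem _, a.2, h6, by rw [ht]; simp⟩), ?_⟩
        have h7 : ((algebraMap (𝓞 k) (𝓞 K) (y * a.1) * t : 𝓞 K) : K) =
            algebraMap k K ((y * a.1 : 𝓞 k) : k) * (t : K) := rfl
        rw [h7, ht, cmul]
        simp only [map_mul]
        ring
      choose! g hg hg' using hex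
      refine ⟨algebraMap (𝓞 k) (𝓞 K) x + ∑ a ∈ s, g a, Ideal.add_mem _ ?_
        (Ideal.sum_mem _ hg), ?_⟩
      · have h5 : algebraMap (𝓞 k) (𝓞 K) x ∈ (A * f).map (algebraMap (𝓞 k) (𝓞 K)) :=
          Ideal.mem_map_of_mem _ hx
        rw [Ideal.map_mul, mul_comm] at h5
        exact Ideal.mul_mono_right le_sup_left h5
      · have h5 : ((algebraMap (𝓞 k) (𝓞 K) x + ∑ a ∈ s, g a : 𝓞 K) : K) =
            algebraMap k K (x : k) + ∑ a ∈ s, ((g a : 𝓞 K) : K) := by
          have h6 := map_add (algebraMap (𝓞 K) K) (algebraMap (𝓞 k) (𝓞 K) x) (∑ a ∈ s, g a)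
          rw [map_sum] at h6
          exact h6
        rw [h5, Finset.sum_congr rfl hg', ← Finset.sum_mul, ← map_sum, ← Finset.mul_sum, hsum,
          mul_one, hz]
    · rintro ⟨t, ht, rfl⟩
      have key : ∀ m ∈ f.map (algebraMap (𝓞 k) (𝓞 K)), ∀ n ∈ Id f A b δ,
          ((m * n : 𝓞 K) : K) ∈ Lt f A b δ := by
        intro m hm
        refine Submodule.span_induction (p := fun m _ => ∀ n ∈ Id f A b δ,
          ((m * n : 𝓞 K) : K) ∈ Lt f A b δ) ?_ ?_ ?_ ?_ hm
        · rintro _ ⟨a, ha, rfl⟩ n hn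
          obtain ⟨x, hx, q, hq, hn'⟩ := (hid n).1 hn
          obtain ⟨s, hs⟩ := hq a ha
          refine ⟨a * x, ?_, s, ?_⟩
          · rw [mul_comm A f]
            exact Ideal.mul_mem_mul ha hx
          · have h5 : ((algebraMap (𝓞 k) (𝓞 K) a * n : 𝓞 K) : K) =
                algebraMap k K (a : k) * (n : K) := rfl
            change ((algebraMap (𝓞 k) (𝓞 K) a * n : 𝓞 K) : K) = _
            rw [h5, hn', cmul, hs, map_mul]
            ring
        · intro n _
          have h5 : (((0 : 𝓞 K) * n : 𝓞 K) : K) = 0 := by simp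
          rw [h5]
          exact Submodule.zero_mem _
        · intro m m' _ _ hm hm' n hn
          have h5 : (((m + m') * n : 𝓞 K) : K) = ((m * n : 𝓞 K) : K) + ((m' * n : 𝓞 K) : K) := by
            rw [add_mul]
            rfl
          rw [h5]
          exact Submodule.add_mem _ (hm n hn) (hm' n hn)
        · intro r m _ hm n hn
          have h5 : ((r • m) * n : 𝓞 K) = m * (r * n) := by
            rw [smul_eq_mul]
            ring
          rw [h5]
          exact hm _ (Ideal.mul_mem_left _ _ hn)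
      refine Submodule.mul_induction_on ht key ?_
      intro x y hx hy
      have h5 : ((x + y : 𝓞 K) : K) = (x : K) + (y : K) := rfl
      rw [h5]
      exact Submodule.add_mem _ hx hy
  · rw [eq_top_iff]
    intro z _
    rw [h1 ⊤ b₀ hK.adm]
    obtain ⟨p, q, hq, hz⟩ := (hK.int z).1 ⟨z, rfl⟩
    exact ⟨p, trivial, q, hq, hz⟩
  · intro hbot
    obtain ⟨x, hx, hx0⟩ := Submodule.exists_mem_ne_zero_of_ne_bot hA.1
    have h5 : algebraMap (𝓞 k) (𝓞 K) x ∈ Id f A b δ :=
      Submodule.mem_sup_left (Ideal.mem_map_of_mem _ hx)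
    rw [hbot, Ideal.mem_bot] at h5
    exact hx0 ((FaithfulSMul.algebraMap_injective (𝓞 k) (𝓞 K)) (by rw [h5, map_zero]))

end Pool.Agent.H93.NV
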